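import Pool.Agent.Q294.Ce.Stm

/-!
# Uniqueness of the law of an excited random walk
-/

set_option autoImplicit false

namespace Pool.Agent.Q144.Ce

open MeasureTheory ProbabilityTheory Filter Topology Set
open Pool.Agent.Q294.Ce (visits IsERW S_law)

/-- the cylinder of the first `n + 1` positions -/
def cyl (n : ℕ) (x : ℕ → ℤ) : Set (ℕ → ℤ) := {y | ∀ k ≤ n, y k = x k}

lemma cyl_meas (n : ℕ) (x : ℕ → ℤ) : MeasurableSet (cyl n x) := by
  have e : cyl n x = ⋂ k ∈ Finset.range (n + 1), (fun y : ℕ → ℤ => y k) ⁻¹' {x k} := by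
    ext y
    simp only [cyl, mem_ofPred_eq, mem_iInter, Finset.mem_range, mem_preimage, mem_singleton_iff]
    exact ⟨fun h k hk => h k (by omega), fun h k hk => h k (by omega)⟩
  rw [e]
  exact Finset.measurableSet_biInter _ fun k _ => measurable_pi_apply k (measurableSet_singleton _)

/-- extension of a finite sequence -/
def ext0 {n : ℕ} (b : Fin (n + 1) → ℤ) (k : ℕ) : ℤ := if h : k < n + 1 then b ⟨k, h⟩ else 0

lemma ext0_eq {n : ℕ} (b : Fin (n + 1) → ℤ) {k : ℕ} (hk : k ≤ n) : ext0 b k = b ⟨k, by omega⟩ := by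
  unfold ext0
  rw [dif_pos (by omega)]

/-- the cylinders -/
def CC : Set (Set (ℕ → ℤ)) := {s | ∃ n x, s = cyl n x}

lemma pi_CC : IsPiSystem CC := by
  rintro _ ⟨n, x, rfl⟩ _ ⟨m, z, rfl⟩ ⟨y, hy1, hy2⟩
  refine ⟨max n m, y, ?_⟩
  ext w
  simp only [cyl, mem_inter_iff, mem_ofPred_eq] at hy1 hy2 ⊢
  constructor
  · rintro ⟨h1, h2⟩ k hk
    rcases le_total n m with h | h
    · rw [max_eq_right h] at hk
      rw [h2 k hk, hy2 k hk]
    · rw [max_eq_left h] at hk
      rw [h1 k hk, hy1 k hk]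
  · intro h
    exact ⟨fun k hk => by rw [h k (hk.trans (le_max_left _ _)), hy1 k hk],
      fun k hk => by rw [h k (hk.trans (le_max_right _ _)), hy2 k hk]⟩

lemma gen_CC : (inferInstance : MeasurableSpace (ℕ → ℤ)) = MeasurableSpace.generateFrom CC := by
  apply le_antisymm
  · refine iSup_le fun n => ?_
    rw [← measurable_iff_comap_le]
    refine @measurable_to_countable' ℤ (ℕ → ℤ) _ _ (MeasurableSpace.generateFrom CC) _ fun z => ?_
    have e : (fun y : ℕ → ℤ => y n) ⁻¹' {z} = ⋃ b : {b : Fin (n + 1) → ℤ // b ⟨n, by omega⟩ = z}, cyl n (ext0 b.1) := by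
      ext y
      simp only [mem_preimage, mem_singleton_iff, mem_iUnion]
      constructor
      · intro h
        refine ⟨⟨fun k => y k, h⟩, fun k hk => ?_⟩
        rw [ext0_eq _ hk]
      · rintro ⟨⟨b, hb⟩, h⟩
        rw [h n le_rfl, ext0_eq _ le_rfl]
        exact hb
    rw [e]
    exact MeasurableSet.iUnion fun b => MeasurableSpace.measurableSet_generateFrom ⟨n, _, rfl⟩
  · apply MeasurableSpace.generateFrom_le
    rintro _ ⟨n, x, rfl⟩
    exact cyl_meas n x

section

variable {Ω : Type*} [MeasurableSpace Ω] {p : ℕ → ℝ} {P : Measure Ω} {X : ℕ → Ω → ℤ}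

lemma ev_meas (h : IsERW p P X) (n : ℕ) (x : ℕ → ℤ) : MeasurableSet {ω | ∀ k ≤ n, X k ω = x k} := by
  have : {ω | ∀ k ≤ n, X k ω = x k} = (fun ω n => X n ω) ⁻¹' (cyl n x) := rfl
  rw [this]
  exact (measurable_pi_lambda _ h.meas) (cyl_meas n x)

/-- the other steps have probability zero -/
lemma other [IsProbabilityMeasure P] (h : IsERW p P X) (n : ℕ) (x : ℕ → ℤ) :
    P {ω | (∀ k ≤ n, X k ω = x k) ∧ X (n + 1) ω ≠ x n + 1 ∧ X (n + 1) ω ≠ x n - 1} = 0 := by
  have h1 := h.right n x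
  have h2 := h.left n x
  have hA := ev_meas h n x
  have hB : ∀ z : ℤ, MeasurableSet {ω | X (n + 1) ω = z} := fun z => h.meas (n + 1) (measurableSet_singleton z)
  have e : {ω | ∀ k ≤ n, X k ω = x k} = ({ω | (∀ k ≤ n, X k ω = x k) ∧ X (n + 1) ω = x n + 1} ∪
      {ω | (∀ k ≤ n, X k ω = x k) ∧ X (n + 1) ω = x n - 1}) ∪
      {ω | (∀ k ≤ n, X k ω = x k) ∧ X (n + 1) ω ≠ x n + 1 ∧ X (n + 1) ω ≠ x n - 1} := by
    ext ω
    simp only [mem_ofPred_eq, mem_union]
    tauto
  have hd1 : Disjoint {ω | (∀ k ≤ n, X k ω = x k) ∧ X (n + 1) ω = x n + 1}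
      {ω | (∀ k ≤ n, X k ω = x k) ∧ X (n + 1) ω = x n - 1} := by
    rw [Set.disjoint_left]
    rintro ω ⟨-, h3⟩ ⟨-, h4⟩
    omega
  have hm1 : MeasurableSet {ω | (∀ k ≤ n, X k ω = x k) ∧ X (n + 1) ω = x n - 1} := hA.inter (hB _)
  have hm2 : MeasurableSet {ω | (∀ k ≤ n, X k ω = x k) ∧ X (n + 1) ω ≠ x n + 1 ∧ X (n + 1) ω ≠ x n - 1} :=
    hA.inter ((hB _).compl.inter (hB _).compl)
  have hd2 : Disjoint ({ω | (∀ k ≤ n, X k ω = x k) ∧ X (n + 1) ω = x n + 1} ∪
      {ω | (∀ k ≤ n, X k ω = x k) ∧ X (n + 1) ω = x n - 1})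
      {ω | (∀ k ≤ n, X k ω = x k) ∧ X (n + 1) ω ≠ x n + 1 ∧ X (n + 1) ω ≠ x n - 1} := by
    rw [Set.disjoint_left]
    rintro ω (⟨-, h3⟩ | ⟨-, h3⟩) ⟨-, h4, h5⟩
    · exact h4 h3
    · exact h5 h3
  have h3 := measureReal_union (μ := P) hd2 hm2
  have h4 := measureReal_union (μ := P) hd1 hm1
  rw [← e, h4, h1, h2] at h3
  have h5 : P.real {ω | (∀ k ≤ n, X k ω = x k) ∧ X (n + 1) ω ≠ x n + 1 ∧ X (n + 1) ω ≠ x n - 1} = 0 := by
    linarith
  exact (measureReal_eq_zero_iff).1 h5

end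

theorem law : S_law := by
  intro p Ω Ω' _ _ P P' _ _ X X' h h'
  have hY : Measurable (fun ω n => X n ω) := measurable_pi_lambda _ h.meas
  have hY' : Measurable (fun ω n => X' n ω) := measurable_pi_lambda _ h'.meas
  have key : ∀ (n : ℕ) (x : ℕ → ℤ), P.real {ω | ∀ k ≤ n, X k ω = x k} = P'.real {ω | ∀ k ≤ n, X' k ω = x k} := by
    intro n
    induction n with
    | zero =>
      intro x
      have e : ∀ {Ω : Type} (X : ℕ → Ω → ℤ), {ω | ∀ k ≤ 0, X k ω = x k} = {ω | X 0 ω = x 0} := by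
        intro Ω X
        ext ω
        simp
      rw [e, e]
      by_cases hx : x 0 = 0
      · have h1 : P {ω | X 0 ω = x 0} = 1 := by
          rw [hx]; exact prob_compl_eq_zero_iff (h.meas 0 (measurableSet_singleton 0)) |>.1 h.start
        have h2 : P' {ω | X' 0 ω = x 0} = 1 := by
          rw [hx]; exact prob_compl_eq_zero_iff (h'.meas 0 (measurableSet_singleton 0)) |>.1 h'.start
        rw [measureReal_def, measureReal_def, h1, h2]
      · have h1 : P {ω | X 0 ω = x 0} = 0 := by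
          refine measure_mono_null ?_ h.start
          intro ω hω h0
          exact hx (hω.symm.trans h0)
        have h2 : P' {ω | X' 0 ω = x 0} = 0 := by
          refine measure_mono_null ?_ h'.start
          intro ω hω h0
          exact hx (hω.symm.trans h0)
        rw [measureReal_def, measureReal_def, h1, h2]
    | succ n ih =>
      intro x
      have e : ∀ {Ω : Type} (X : ℕ → Ω → ℤ), {ω | ∀ k ≤ n + 1, X k ω = x k} = {ω | (∀ k ≤ n, X k ω = x k) ∧ X (n + 1) ω = x (n + 1)} := by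
        intro Ω X
        ext ω
        simp only [mem_ofPred_eq]
        constructor
        · exact fun h => ⟨fun k hk => h k (by omega), h _ le_rfl⟩
        · rintro ⟨h1, h2⟩ k hk
          rcases Nat.lt_or_ge k (n + 1) with h3 | h3
          · exact h1 k (by omega)
          · obtain rfl : k = n + 1 := by omega
            exact h2
      rw [e, e]
      by_cases h1 : x (n + 1) = x n + 1
      · rw [h1, h.right, h'.right, ih]
      · by_cases h2 : x (n + 1) = x n - 1
        · rw [h2, h.left, h'.left, ih]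
        · have h3 : P {ω | (∀ k ≤ n, X k ω = x k) ∧ X (n + 1) ω = x (n + 1)} = 0 := by
            refine measure_mono_null ?_ (other h n x)
            rintro ω ⟨h3, h4⟩
            exact ⟨h3, by rw [h4]; exact h1, by rw [h4]; exact h2⟩
          have h4 : P' {ω | (∀ k ≤ n, X' k ω = x k) ∧ X' (n + 1) ω = x (n + 1)} = 0 := by
            refine measure_mono_null ?_ (other h' n x)
            rintro ω ⟨h3, h4⟩
            exact ⟨h3, by rw [h4]; exact h1, by rw [h4]; exact h2⟩
          rw [measureReal_def, measureReal_def, h3, h4]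
  have : IsProbabilityMeasure (P.map (fun ω n => X n ω)) := Measure.isProbabilityMeasure_map hY.aemeasurable
  have : IsProbabilityMeasure (P'.map (fun ω n => X' n ω)) := Measure.isProbabilityMeasure_map hY'.aemeasurable
  refine ext_of_generate_finite CC gen_CC pi_CC ?_ (by rw [measure_univ, measure_univ])
  rintro _ ⟨n, x, rfl⟩
  rw [Measure.map_apply hY (cyl_meas n x), Measure.map_apply hY' (cyl_meas n x)]
  have h1 := key n x
  rw [measureReal_def, measureReal_def, ENNReal.toReal_eq_toReal_iff' (measure_ne_top _ _) (measure_ne_top _ _)] at h1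
  exact h1

end Pool.Agent.Q144.Ce
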