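import Pool.Agent.Q144.Ce.Law

/-!
# An excited random walk with nonnegative drifts is unbounded above
-/

set_option autoImplicit false

namespace Pool.Agent.Q144.Ce

open MeasureTheory ProbabilityTheory Filter Topology Set
open Pool.Agent.Q294.Ce (visits IsERW S_sup Good dr)

/-- the number of visits before time `n` -/
def LL (x : ℕ → ℤ) (n : ℕ) (y : ℤ) : ℕ := ((Finset.range n).filter fun k => x k = y).card

lemma visits_eq (x : ℕ → ℤ) (n : ℕ) : visits x n = LL x n (x n) + 1 := by
  unfold visits LL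
  rw [Finset.range_add_one, Finset.filter_insert, if_pos rfl, Finset.card_insert_of_notMem (by simp)]

lemma LL_succ (x : ℕ → ℤ) (n : ℕ) (y : ℤ) : LL x (n + 1) y = LL x n y + if x n = y then 1 else 0 := by
  unfold LL
  rw [Finset.range_add_one, Finset.filter_insert]
  split_ifs with h
  · rw [Finset.card_insert_of_notMem (by simp)]
  · simp

/-- the drift used before time `n` -/
noncomputable def dd (p : ℕ → ℝ) (x : ℕ → ℤ) (n : ℕ) : ℝ := ∑ k ∈ Finset.range n, (2 * p (visits x k - 1) - 1)

lemma dd_eq (p : ℕ → ℝ) (x : ℕ → ℤ) (B : Finset ℤ) (n : ℕ) (hB : ∀ k < n, x k ∈ B) :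
    dd p x n = ∑ y ∈ B, dr p (LL x n y) := by
  induction n with
  | zero => simp [dd, LL, dr]
  | succ n ih =>
    have h1 := ih fun k hk => hB k (by omega)
    unfold dd at h1 ⊢
    rw [Finset.sum_range_succ, h1]
    have hx := hB n (by omega)
    rw [← Finset.add_sum_erase B _ hx, ← Finset.add_sum_erase B (fun y => dr p (LL x (n + 1) y)) hx]
    have h2 : ∑ y ∈ B.erase (x n), dr p (LL x (n + 1) y) = ∑ y ∈ B.erase (x n), dr p (LL x n y) := by
      apply Finset.sum_congr rfl
      intro y hy
      rw [LL_succ, if_neg (Ne.symm (Finset.ne_of_mem_erase hy)), add_zero]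
    rw [h2, LL_succ, if_pos rfl, visits_eq, Nat.add_sub_cancel]
    unfold dr
    rw [Finset.sum_range_succ]
    ring

lemma dd_nonneg {p : ℕ → ℝ} {κ Δ : ℝ} (hp : Good p κ Δ) (x : ℕ → ℤ) (n : ℕ) : 0 ≤ dd p x n := by
  rw [dd_eq p x ((Finset.range n).image x) n (fun k hk => Finset.mem_image_of_mem x (Finset.mem_range.2 hk))]
  exact Finset.sum_nonneg fun y _ => hp.dr_nonneg _

lemma visits_congr {x z : ℕ → ℤ} {n : ℕ} (h : ∀ k ≤ n, x k = z k) : visits x n = visits z n := by
  unfold visits
  congr 1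
  apply Finset.filter_congr
  intro k hk
  rw [Finset.mem_range] at hk
  rw [h k (by omega), h n le_rfl]

section

variable {Ω : Type} [MeasurableSpace Ω] {p : ℕ → ℝ} {P : Measure Ω} [IsProbabilityMeasure P] {X : ℕ → Ω → ℤ}

/-- the first `n + 1` positions -/
def ZZ (X : ℕ → Ω → ℤ) (n : ℕ) (ω : Ω) : Fin (n + 1) → ℤ := fun k => X k ω

lemma ZZ_meas (h : IsERW p P X) (n : ℕ) : Measurable (ZZ X n) := measurable_pi_lambda _ fun k => h.meas k

/-- the filtration -/
def filt (h : IsERW p P X) : Filtration ℕ (inferInstance : MeasurableSpace Ω) where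
  seq n := MeasurableSpace.comap (ZZ X n) inferInstance
  mono' m n hmn := by
    refine Measurable.comap_le ?_
    rw [@measurable_pi_iff]
    intro i
    have hi : (i : ℕ) < n + 1 := by have := i.2; omega
    exact (measurable_pi_apply (⟨i, hi⟩ : Fin (n + 1))).comp (comap_measurable (ZZ X n))
  le' n := (ZZ_meas h n).comap_le

lemma filt_X (h : IsERW p P X) {k n : ℕ} (hk : k ≤ n) : Measurable[filt h n] (X k) :=
  (measurable_pi_apply (⟨k, by omega⟩ : Fin (n + 1))).comp (comap_measurable (ZZ X n))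

lemma fib_eq (n : ℕ) (b : Fin (n + 1) → ℤ) : ZZ X n ⁻¹' {b} = {ω | ∀ k ≤ n, X k ω = ext0 b k} := by
  ext ω
  simp only [mem_preimage, mem_singleton_iff, mem_ofPred_eq]
  constructor
  · intro h k hk
    rw [ext0_eq b hk, ← h]
    rfl
  · intro h
    funext k
    have := h k (by have := k.2; omega)
    rw [ext0_eq b (by have := k.2; omega)] at this
    exact this

/-- almost surely the steps are `±1` -/
lemma steps (h : IsERW p P X) : ∀ᵐ ω ∂P, ∀ n, X (n + 1) ω = X n ω + 1 ∨ X (n + 1) ω = X n ω - 1 := by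
  rw [ae_all_iff]
  intro n
  have h1 : ∀ᵐ ω ∂P, ∀ b : Fin (n + 1) → ℤ, ¬ ((∀ k ≤ n, X k ω = ext0 b k) ∧ X (n + 1) ω ≠ ext0 b n + 1 ∧ X (n + 1) ω ≠ ext0 b n - 1) := by
    rw [ae_all_iff]
    intro b
    have := other h n (ext0 b)
    rw [ae_iff]
    simpa using this
  filter_upwards [h1] with ω hω
  by_contra hcon
  push Not at hcon
  apply hω (ZZ X n ω)
  have h2 : ∀ k ≤ n, X k ω = ext0 (ZZ X n ω) k := by
    intro k hk
    rw [ext0_eq _ hk]; rfl
  refine ⟨h2, ?_, ?_⟩
  · rw [← h2 n le_rfl]; exact hcon.1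
  · rw [← h2 n le_rfl]; exact hcon.2

/-- the martingale -/
noncomputable def MM (p : ℕ → ℝ) (X : ℕ → Ω → ℤ) (n : ℕ) (ω : Ω) : ℝ := (X n ω : ℝ) - dd p (fun k => X k ω) n

lemma MM_succ (n : ℕ) (ω : Ω) : MM p X (n + 1) ω - MM p X n ω =
    ((X (n + 1) ω : ℝ) - X n ω) - (2 * p (visits (fun k => X k ω) n - 1) - 1) := by
  unfold MM dd
  rw [Finset.sum_range_succ]
  ring

lemma vis_meas (h : IsERW p P X) {k n : ℕ} (hk : k ≤ n) : Measurable[filt h n] (fun ω => visits (fun j => X j ω) k) := by
  simp only [visits, Finset.card_filter]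
  refine Finset.measurable_sum _ fun j hj => ?_
  rw [Finset.mem_range] at hj
  exact Measurable.ite (measurableSet_eq_fun (filt_X h (by omega)) (filt_X h hk)) measurable_const measurable_const

lemma MM_meas (h : IsERW p P X) (n : ℕ) : Measurable[filt h n] (MM p X n) := by
  have h1 : Measurable[filt h n] (fun ω => (X n ω : ℝ)) :=
    (Measurable.of_discrete (f := fun z : ℤ => (z : ℝ))).comp (filt_X h le_rfl)
  have h2 : Measurable[filt h n] (fun ω => dd p (fun k => X k ω) n) := by
    unfold dd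
    refine Finset.measurable_sum _ fun j hj => ?_
    rw [Finset.mem_range] at hj
    exact (Measurable.of_discrete (f := fun i : ℕ => 2 * p (i - 1) - 1)).comp (vis_meas h hj.le)
  exact h1.sub h2

variable {κ Δ : ℝ}

lemma step_bd (hp : Good p κ Δ) (h : IsERW p P X) : ∀ᵐ ω ∂P, ∀ n, |MM p X (n + 1) ω - MM p X n ω| ≤ 2 ∧
    2 * κ ≤ |MM p X (n + 1) ω - MM p X n ω| := by
  filter_upwards [steps h] with ω hω n
  rw [MM_succ]
  have h1 := hp.lo (visits (fun k => X k ω) n - 1)
  have h2 := hp.hi (visits (fun k => X k ω) n - 1)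
  have h3 := hp.pos
  set q := p (visits (fun k => X k ω) n - 1)
  rcases hω n with h4 | h4
  · have : (X (n + 1) ω : ℝ) - X n ω = 1 := by rw [h4]; push_cast; ring
    rw [this, abs_of_nonneg (by linarith)]
    constructor <;> linarith
  · have : (X (n + 1) ω : ℝ) - X n ω = -1 := by rw [h4]; push_cast; ring
    rw [this, abs_of_nonpos (by linarith)]
    constructor <;> linarith

lemma MM_bd (hp : Good p κ Δ) (h : IsERW p P X) (n : ℕ) : ∀ᵐ ω ∂P, |MM p X n ω| ≤ 2 * n := by
  filter_upwards [step_bd hp h, h.start] with ω hω h0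
  induction n with
  | zero => simp [MM, dd, h0]
  | succ n ih =>
    have h1 := (hω n).1
    have h2 := abs_add_le (MM p X n ω) (MM p X (n + 1) ω - MM p X n ω)
    rw [add_sub_cancel] at h2
    push_cast
    linarith

lemma MM_int (hp : Good p κ Δ) (h : IsERW p P X) (n : ℕ) : Integrable (MM p X n) P :=
  Integrable.of_bound ((MM_meas h n).mono ((filt h).le n) le_rfl).aestronglyMeasurable _ (MM_bd hp h n)

/-- the increment has mean zero on the cylinders -/
lemma cyl_zero (hp : Good p κ Δ) (h : IsERW p P X) (n : ℕ) (x : ℕ → ℤ) :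
    ∫ ω in {ω | ∀ k ≤ n, X k ω = x k}, (MM p X (n + 1) ω - MM p X n ω) ∂P = 0 := by
  set A := {ω | ∀ k ≤ n, X k ω = x k} with hA
  set q := p (visits x n - 1) with hq
  have hAm : MeasurableSet A := ev_meas h n x
  set R := {ω | (∀ k ≤ n, X k ω = x k) ∧ X (n + 1) ω = x n + 1} with hR
  set L := {ω | (∀ k ≤ n, X k ω = x k) ∧ X (n + 1) ω = x n - 1} with hL
  have hRm : MeasurableSet R := hAm.inter (h.meas (n + 1) (measurableSet_singleton (x n + 1)))
  have hLm : MeasurableSet L := hAm.inter (h.meas (n + 1) (measurableSet_singleton (x n - 1)))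
  have hae : ∀ᵐ ω ∂(P.restrict A), MM p X (n + 1) ω - MM p X n ω =
      R.indicator (fun _ => (1 : ℝ)) ω - L.indicator (fun _ => (1 : ℝ)) ω - (2 * q - 1) := by
    rw [ae_restrict_iff' hAm]
    filter_upwards [steps h] with ω hω hωA
    rw [MM_succ]
    have hv : visits (fun k => X k ω) n = visits x n := visits_congr hωA
    rw [hv]
    have hxn : X n ω = x n := hωA n le_rfl
    rcases hω n with h4 | h4
    · have h5 : ω ∈ R := ⟨hωA, by rw [h4, hxn]⟩
      have h6 : ω ∉ L := by
        rintro ⟨-, h7⟩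
        rw [h4, hxn] at h7
        omega
      rw [indicator_of_mem h5, indicator_of_notMem h6, h4]
      push_cast
      ring
    · have h5 : ω ∈ L := ⟨hωA, by rw [h4, hxn]⟩
      have h6 : ω ∉ R := by
        rintro ⟨-, h7⟩
        rw [h4, hxn] at h7
        omega
      rw [indicator_of_mem h5, indicator_of_notMem h6, h4]
      push_cast
      ring
  rw [integral_congr_ae hae]
  have i1 : Integrable (R.indicator (fun _ => (1 : ℝ))) (P.restrict A) := (integrable_const 1).indicator hRm
  have i2 : Integrable (L.indicator (fun _ => (1 : ℝ))) (P.restrict A) := (integrable_const 1).indicator hLm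
  have i3 : Integrable (fun ω => R.indicator (fun _ => (1 : ℝ)) ω - L.indicator (fun _ => (1 : ℝ)) ω) (P.restrict A) := i1.sub i2
  rw [integral_sub i3 (integrable_const _), integral_sub i1 i2, integral_indicator hRm, integral_indicator hLm]
  simp only [integral_const, smul_eq_mul, mul_one, measureReal_restrict_apply, MeasurableSet.univ, univ_inter]
  have e1 : (P.restrict A).real R = P.real R := by
    rw [measureReal_restrict_apply hRm]
    congr 1
    exact inter_eq_left.2 fun ω hω => hω.1
  have e2 : (P.restrict A).real L = P.real L := by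
    rw [measureReal_restrict_apply hLm]
    congr 1
    exact inter_eq_left.2 fun ω hω => hω.1
  rw [e1, e2, hR, hL, h.right n x, h.left n x]
  ring

lemma set_zero (hp : Good p κ Δ) (h : IsERW p P X) (n : ℕ) (s : Set Ω) (hs : MeasurableSet[filt h n] s) :
    ∫ ω in s, (MM p X (n + 1) ω - MM p X n ω) ∂P = 0 := by
  obtain ⟨B, -, rfl⟩ := hs
  have e : ZZ X n ⁻¹' B = ⋃ b : B, ZZ X n ⁻¹' {b.1} := by
    ext ω
    simp
  have hi : Integrable (fun ω => MM p X (n + 1) ω - MM p X n ω) P := (MM_int hp h _).sub (MM_int hp h _)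
  have h1 := hasSum_integral_iUnion (μ := P) (f := fun ω => MM p X (n + 1) ω - MM p X n ω)
    (s := fun b : B => ZZ X n ⁻¹' {b.1}) (fun b => ZZ_meas h n (measurableSet_singleton _)) (by
      intro b c hbc
      rw [Function.onFun, Set.disjoint_left]
      intro ω h1 h2
      apply hbc
      apply Subtype.ext
      rw [mem_preimage, mem_singleton_iff] at h1 h2
      rw [← h1, ← h2]) hi.integrableOn
  rw [e]
  have h2 : (fun b : B => ∫ ω in ZZ X n ⁻¹' {b.1}, (MM p X (n + 1) ω - MM p X n ω) ∂P) = fun _ => 0 := by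
    funext b
    rw [fib_eq]
    exact cyl_zero hp h n _
  rw [h2] at h1
  exact h1.unique hasSum_zero

lemma mart (hp : Good p κ Δ) (h : IsERW p P X) : Martingale (MM p X) (filt h) P := by
  refine martingale_of_setIntegral_eq_succ (fun n => (MM_meas h n).stronglyMeasurable) (MM_int hp h) ?_
  intro n s hs
  have h1 := set_zero hp h n s hs
  rw [integral_sub (MM_int hp h _).integrableOn (MM_int hp h _).integrableOn] at h1
  linarith

end

theorem sup : S_sup := by
  intro p κ Δ hp Ω _ P _ X h
  have h1 := (mart hp h).submartingale.bddAbove_iff_exists_tendsto (R := 2) (by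
    filter_upwards [step_bd hp h] with ω hω i
    exact_mod_cast (hω i).1)
  filter_upwards [h1, step_bd hp h] with ω hω hst m
  by_contra hcon
  push Not at hcon
  have hb : BddAbove (Set.range fun n => MM p X n ω) := by
    refine ⟨m, ?_⟩
    rintro _ ⟨n, rfl⟩
    have h2 : (X n ω : ℝ) ≤ m := by exact_mod_cast hcon n
    have h3 := dd_nonneg hp (fun k => X k ω) n
    show MM p X n ω ≤ m
    unfold MM
    linarith
  obtain ⟨c, hc⟩ := hω.1 hb
  have h2 : Tendsto (fun n => MM p X (n + 1) ω - MM p X n ω) atTop (𝓝 (c - c)) :=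
    ((tendsto_add_atTop_iff_nat 1).2 hc).sub hc
  rw [sub_self] at h2
  have h3 := h2.abs
  rw [abs_zero] at h3
  have h4 := ge_of_tendsto h3 (Eventually.of_forall fun n => (hst n).2)
  linarith [hp.pos]

end Pool.Agent.Q144.Ce
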